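import Pool.Agent.X266.EPC.Lem

/-!
# The induction over the columns of the ladder
-/

set_option autoImplicit false

namespace Pool.Agent.X266.EPC

/-- the edges of the right cap and of the columns `0, …, c - 1` -/
def HEdge (c p q : ℕ) : Prop :=
  (∃ e ∈ EC, p = e.1 ∧ q = e.2) ∨ ∃ i < c, ∃ e ∈ EK, p = o i + e.1 ∧ q = o i + e.2

theorem all_range {n : ℕ} {f : ℕ → Bool} (h : ((List.range n).all f) = true) {j : ℕ} (hj : j < n) :
    f j = true := by
  rw [List.all_eq_true] at h
  exact h j (List.mem_range.2 hj)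

theorem dec_length (k m : ℕ) : (dec k m).length = k := by simp [dec]

theorem mem_getD {l : List (ℕ × ℕ)} {e : ℕ × ℕ} (he : e ∈ l) :
    ∃ n < l.length, l.getD n (0, 0) = e := by
  obtain ⟨n, hn, h⟩ := List.mem_iff_getElem.1 he
  exact ⟨n, hn, by rw [List.getD_eq_getElem _ _ hn]; exact h⟩

theorem o_zero : o 0 = 7 := rfl

theorem o_ge (c : ℕ) : 7 ≤ o c := by unfold o; omega

/-- a path in the column from `38` to `39` -/
theorem turn {A : ℕ → ℕ → Prop} {c : ℕ} (hA : ∀ a b, aK a b = true → A (o c + a) (o c + b))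
    {I : List ℕ} (hI : ok aK 40 (38 :: (I ++ [39])) = true)
    (hI' : (I.all fun v => Nat.blt v 38) = true) :
    Path A (c + 1) I.length (fun _ => True) := by
  unfold ok at hI
  rw [Bool.and_eq_true, Bool.and_eq_true, List.all_eq_true] at hI
  obtain ⟨⟨h1, -⟩, h3⟩ := hI
  rw [List.all_eq_true] at hI'
  have h1' := shift_nodup (nd_nodup h1) (o c)
  have h3' := shift_chain hA (ch_chain h3)
  have e1 : (38 :: (I ++ [39])).map (o c + ·) =
      o (c + 1) :: (I.map (o c + ·) ++ [o (c + 1) + 1]) := by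
    simp [o_succ]
  rw [e1] at h1' h3'
  refine ⟨I.map (o c + ·), ?_, ?_, by simp, h3', trivial⟩
  · rw [List.nodup_cons, List.nodup_append] at h1'
    exact h1'.2.1
  · intro v hv
    rw [List.mem_map] at hv
    obtain ⟨x, hx, hv⟩ := hv
    have := Nat.le_of_ble_eq_true (hI' x hx)
    have ho := o_succ c
    omega

section

variable {A : ℕ → ℕ → Prop} {m : ℕ} (hR : ∀ a b, aC a b = true → A a b)
  (hK : ∀ c < m, ∀ a b, aK a b = true → A (o c + a) (o c + b))

include hR hK

theorem path_all : ∀ c ≤ m, ∀ k, 1 ≤ k → k ≤ o c → Path A c k (fun _ => True) := by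
  intro c
  induction c with
  | zero =>
    intro _ k hk1 hk2
    rw [o_zero] at hk2
    have h := all_range pR_check (show k - 1 < 7 by omega)
    rw [Bool.and_eq_true] at h
    have hk3 : k - 1 + 1 = k := by omega
    rw [hk3] at h
    generalize hI : dec k (pR.getD (k - 1) 0) = I at h
    have hl : I.length = k := by rw [← hI, dec_length]
    obtain ⟨h1, h2⟩ := h
    unfold ok at h1
    rw [Bool.and_eq_true, Bool.and_eq_true] at h1
    rw [List.all_eq_true] at h2
    obtain ⟨⟨h3, -⟩, h5⟩ := h1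
    have h6 := nd_nodup h3
    rw [List.nodup_cons, List.nodup_append] at h6
    refine ⟨I, h6.2.1, fun v hv => ?_, hl, ?_, trivial⟩
    · have := Nat.le_of_ble_eq_true (h2 v hv)
      rw [o_zero]
      omega
    · exact (ch_chain h5).imp fun a b hab => hR a b hab
  | succ c ih =>
    intro hc k hk1 hk2
    have ho := o_succ c
    by_cases hk3 : k ≤ 13
    · have h := all_range rt_check (show k - 1 < 13 by omega)
      rw [Bool.and_eq_true] at h
      have hk4 : k - 1 + 1 = k := by omega
      rw [hk4] at h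
      have := turn (hK c (by omega)) h.1 h.2
      rwa [dec_length] at this
    · obtain ⟨w, k', hw1, hw2, hk4, hk5, hk6⟩ : ∃ w k', 15 ≤ w ∧ w ≤ 40 ∧ 1 ≤ k' ∧ k' ≤ o c ∧
          k + 2 = k' + w := by
        by_cases h : k ≤ o c + 13
        · exact ⟨15, k - 13, by omega, by omega, by omega, by omega, by omega⟩
        · exact ⟨k - o c + 2, o c, by omega, by omega, by have := o_ge c; omega, le_rfl, by omega⟩
      obtain ⟨M, h1, h2, h3, h4, -⟩ := ih (by omega) k' hk4 hk5
      have h := all_range md_check (show w - 15 < 26 by omega)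
      have hw3 : w - 15 + 15 = w := by omega
      rw [hw3] at h
      obtain ⟨M', g1, g2, g3, g4, -⟩ := extend (hK c (by omega)) h1 h2 h4 h
      exact ⟨M', g1, g2, by omega, g4, trivial⟩

/-- the edges of a new column: cycles -/
theorem new_cyc {c : ℕ} (hc : c < m) {n : ℕ} (hn : n < 75) {L : ℕ} (hL : 3 ≤ L) (hL' : L ≤ 24) :
    Cyc A (o (c + 1) + 2) L
      (HasE (o c + (EK.getD n (0, 0)).1) (o c + (EK.getD n (0, 0)).2)) := by
  have h := all_range (all_range cy_check hn) (show L - 3 < 22 by omega)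
  have hL3 : L - 3 + 3 = L := by omega
  rw [hL3] at h
  have ho := o_succ c
  unfold okE at h
  split at h
  · rw [Bool.and_eq_true] at h
    obtain ⟨h1, h2⟩ := h
    generalize hI : dec L (((cCy.getD n []).getD (L - 3) (0, 0)).2) = I at h1 h2
    have hl : I.length = L := by rw [← hI, dec_length]
    unfold okc at h1
    rw [Bool.and_eq_true, Bool.and_eq_true, List.all_eq_true] at h1
    obtain ⟨⟨h3, h4⟩, h5⟩ := h1
    have e1 : I.map (o c + ·) ++ (I.map (o c + ·)).take 1 = (I ++ I.take 1).map (o c + ·) := by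
      simp
    refine ⟨I.map (o c + ·), shift_nodup (nd_nodup h3) _, ?_, by simp [hl], ?_, ?_⟩
    · intro v hv
      rw [List.mem_map] at hv
      obtain ⟨x, hx, hv⟩ := hv
      have := Nat.le_of_ble_eq_true (h4 x hx)
      omega
    · rw [e1]
      exact shift_chain (hK c hc) (ch_chain h5)
    · rw [e1]
      exact (has_hasE h2).shift _
  · rw [Bool.and_eq_true] at h
    obtain ⟨h1, h2⟩ := h
    obtain ⟨M, g1, g2, g3, g4, -⟩ := path_all hR hK c (by omega) 1 le_rfl (by have := o_ge c; omega)
    obtain ⟨l, f1, f2, f3, f4, -, f6⟩ := close (hK c hc) g1 g2 g4 h1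
    rw [dec_length] at f3
    exact ⟨l, f1, fun v hv => by have := f2 v hv; omega, by omega, f4,
      ((has_hasE h2).shift _).mono f6⟩

/-- the edges of a new column: paths -/
theorem new_path {c : ℕ} (hc : c < m) {n : ℕ} (hn : n < 75) {k : ℕ} (hk : 17 ≤ k)
    (hk' : k ≤ o (c + 1)) :
    Path A (c + 1) k (HasE (o c + (EK.getD n (0, 0)).1) (o c + (EK.getD n (0, 0)).2)) := by
  have ho := o_succ c
  have ho' := o_ge c
  obtain ⟨j, k', hj, h1, h2, h3⟩ : ∃ j k', j < 5 ∧ 1 ≤ k' ∧ k' ≤ o c ∧ k + 2 = k' + ws.getD j 0 := by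
    by_cases h1 : k ≤ 23
    · exact ⟨0, k - 16, by omega, by omega, by omega, by simp [ws]; omega⟩
    by_cases h2 : k ≤ 30
    · exact ⟨1, k - 23, by omega, by omega, by omega, by simp [ws]; omega⟩
    by_cases h3 : k ≤ 37
    · exact ⟨2, k - 30, by omega, by omega, by omega, by simp [ws]; omega⟩
    by_cases h4 : k ≤ o c + 37
    · exact ⟨3, k - 37, by omega, by omega, by omega, by simp [ws]; omega⟩
    · exact ⟨4, k - 38, by omega, by omega, by omega, by simp [ws]; omega⟩
  have h := all_range (all_range me_check hn) hj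
  rw [Bool.and_eq_true] at h
  obtain ⟨h4, h5⟩ := h
  obtain ⟨M, g1, g2, g3, g4, -⟩ := path_all hR hK c (by omega) k' h1 h2
  obtain ⟨M', f1, f2, f3, f4, -, f6, f7⟩ := extend (hK c hc) g1 g2 g4 h4
  refine ⟨M', f1, f2, by omega, f4, ?_⟩
  unfold hasm at h5
  rw [Bool.or_eq_true] at h5
  rcases h5 with h5 | h5
  · exact ((has_hasE h5).shift _).mono f6
  · exact ((has_hasE h5).shift _).mono f7

theorem edge_all : ∀ c ≤ m, ∀ p q, HEdge c p q → ∃ s ≤ o c,
    (∀ L, 3 ≤ L → L ≤ s + 7 → Cyc A (o c + 2) L (HasE p q)) ∧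
      ∀ k, s ≤ k → k ≤ o c → Path A c k (HasE p q) := by
  intro c
  induction c with
  | zero =>
    rintro - p q (⟨e, he, rfl, rfl⟩ | ⟨i, hi, -⟩)
    swap
    · omega
    obtain ⟨n, hn, rfl⟩ := mem_getD he
    rw [EC_len] at hn
    refine ⟨2, by rw [o_zero]; omega, ?_, ?_⟩
    · intro L hL hL'
      have h := all_range (all_range pCy_check hn) (show L - 3 < 7 by omega)
      have hL3 : L - 3 + 3 = L := by omega
      rw [hL3, Bool.and_eq_true] at h
      obtain ⟨h1, h2⟩ := h
      generalize hI : dec L ((pCy.getD n []).getD (L - 3) 0) = I at h1 h2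
      have hl : I.length = L := by rw [← hI, dec_length]
      unfold okc at h1
      rw [Bool.and_eq_true, Bool.and_eq_true, List.all_eq_true] at h1
      obtain ⟨⟨h3, h4⟩, h5⟩ := h1
      refine ⟨I, nd_nodup h3, ?_, hl, ?_, has_hasE h2⟩
      · intro v hv
        have := Nat.le_of_ble_eq_true (h4 v hv)
        rw [o_zero]
        omega
      · exact (ch_chain h5).imp fun a b hab => hR a b hab
    · intro k hk1 hk2
      rw [o_zero] at hk2
      have h := all_range (all_range pRe_check hn) (show k - 2 < 6 by omega)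
      have hk3 : k - 2 + 2 = k := by omega
      rw [hk3, Bool.and_eq_true, Bool.and_eq_true] at h
      generalize hI : dec k ((pRe.getD n []).getD (k - 2) 0) = I at h
      have hl : I.length = k := by rw [← hI, dec_length]
      obtain ⟨⟨h1, h2⟩, h0⟩ := h
      unfold ok at h1
      rw [Bool.and_eq_true, Bool.and_eq_true] at h1
      rw [List.all_eq_true] at h2
      obtain ⟨⟨h3, -⟩, h5⟩ := h1
      have h6 := nd_nodup h3
      rw [List.nodup_cons, List.nodup_append] at h6
      refine ⟨I, h6.2.1, fun v hv => ?_, hl, ?_, has_hasE h0⟩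
      · have := Nat.le_of_ble_eq_true (h2 v hv)
        rw [o_zero]
        omega
      · exact (ch_chain h5).imp fun a b hab => hR a b hab
  | succ c ih =>
    intro hc p q hpq
    have ho := o_succ c
    have old : HEdge c p q → ∃ s ≤ o (c + 1),
        (∀ L, 3 ≤ L → L ≤ s + 7 → Cyc A (o (c + 1) + 2) L (HasE p q)) ∧
          ∀ k, s ≤ k → k ≤ o (c + 1) → Path A (c + 1) k (HasE p q) := by
      intro h
      obtain ⟨s, hs, h1, h2⟩ := ih (by omega) p q h
      refine ⟨s + 13, by omega, ?_, ?_⟩
      · intro L hL hL'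
        by_cases hL'' : L ≤ s + 7
        · exact (h1 L hL hL'').mono (by omega)
        · obtain ⟨M, g1, g2, g3, g4, g5⟩ := h2 s le_rfl hs
          have h := all_range lt_check (show L - s - 8 < 13 by omega)
          obtain ⟨l, f1, f2, f3, f4, f5, -⟩ := close (hK c (by omega)) g1 g2 g4 h
          rw [dec_length] at f3
          exact ⟨l, f1, fun v hv => by have := f2 v hv; omega, by omega, f4, g5.mono f5⟩
      · intro k hk hk'
        obtain ⟨w, k', hw1, hw2, hk4, hk5, hk6⟩ : ∃ w k', 15 ≤ w ∧ w ≤ 40 ∧ s ≤ k' ∧ k' ≤ o c ∧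
            k + 2 = k' + w := by
          by_cases h : k ≤ o c + 13
          · exact ⟨15, k - 13, by omega, by omega, by omega, by omega, by omega⟩
          · exact ⟨k - o c + 2, o c, by omega, by omega, by omega, le_rfl, by omega⟩
        obtain ⟨M, g1, g2, g3, g4, g5⟩ := h2 k' hk4 hk5
        have h := all_range md_check (show w - 15 < 26 by omega)
        have hw3 : w - 15 + 15 = w := by omega
        rw [hw3] at h
        obtain ⟨M', f1, f2, f3, f4, f5, -⟩ := extend (hK c (by omega)) g1 g2 g4 h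
        exact ⟨M', f1, f2, by omega, f4, g5.mono f5⟩
    rcases hpq with h | ⟨i, hi, e, he, rfl, rfl⟩
    · exact old (Or.inl h)
    · by_cases hi' : i < c
      · exact old (Or.inr ⟨i, hi', e, he, rfl, rfl⟩)
      · have hi'' : i = c := by omega
        subst hi''
        obtain ⟨n, hn, rfl⟩ := mem_getD he
        rw [EK_len] at hn
        exact ⟨17, by have := o_ge i; omega,
          fun L hL hL' => new_cyc hR hK (by omega) hn hL (by omega),
          fun k hk hk' => new_path hR hK (by omega) hn hk hk'⟩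

/-- all the edges of the ladder -/
theorem ladder (hL : ∀ a b, aC a b = true → A (o m + a) (o m + b)) {p q : ℕ}
    (hpq : HEdge m p q ∨ ∃ e ∈ EC, p = o m + e.1 ∧ q = o m + e.2) {L : ℕ} (h3 : 3 ≤ L)
    (hLn : L ≤ o m + 9) : Cyc A (o m + 9) L (HasE p q) := by
  rcases hpq with h | ⟨e, he, rfl, rfl⟩
  · obtain ⟨s, hs, h1, h2⟩ := edge_all hR hK m le_rfl p q h
    by_cases hL1 : L ≤ s + 7
    · exact (h1 L h3 hL1).mono (by omega)
    · obtain ⟨j, k, hj, hk1, hk2, hk3⟩ : ∃ j k, j < 2 ∧ s ≤ k ∧ k ≤ o m ∧ L = k + (j + 8) := by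
        by_cases h4 : L ≤ o m + 8
        · exact ⟨0, L - 8, by omega, by omega, by omega, by omega⟩
        · exact ⟨1, L - 9, by omega, by omega, by omega, by omega⟩
      obtain ⟨M, g1, g2, g3, g4, g5⟩ := h2 k hk1 hk2
      obtain ⟨l, f1, f2, f3, f4, f5, -⟩ := close hL g1 g2 g4 (all_range pL_check hj)
      rw [dec_length] at f3
      exact ⟨l, f1, f2, by omega, f4, g5.mono f5⟩
  · obtain ⟨n, hn, rfl⟩ := mem_getD he
    rw [EC_len] at hn
    by_cases hL1 : L ≤ 9
    · have h := all_range (all_range pCy_check hn) (show L - 3 < 7 by omega)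
      have hL3 : L - 3 + 3 = L := by omega
      rw [hL3, Bool.and_eq_true] at h
      obtain ⟨h1, h2⟩ := h
      generalize hI : dec L ((pCy.getD n []).getD (L - 3) 0) = I at h1 h2
      have hl : I.length = L := by rw [← hI, dec_length]
      unfold okc at h1
      rw [Bool.and_eq_true, Bool.and_eq_true, List.all_eq_true] at h1
      obtain ⟨⟨h3, h4⟩, h5⟩ := h1
      have e1 : I.map (o m + ·) ++ (I.map (o m + ·)).take 1 = (I ++ I.take 1).map (o m + ·) := by
        simp
      refine ⟨I.map (o m + ·), shift_nodup (nd_nodup h3) _, ?_, by simp [hl], ?_, ?_⟩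
      · intro v hv
        rw [List.mem_map] at hv
        obtain ⟨x, hx, hv⟩ := hv
        have := Nat.le_of_ble_eq_true (h4 x hx)
        omega
      · rw [e1]
        exact shift_chain hL (ch_chain h5)
      · rw [e1]
        exact (has_hasE h2).shift _
    · obtain ⟨M, g1, g2, g3, g4, -⟩ := path_all hR hK m le_rfl (L - 9) (by omega) (by omega)
      have h := all_range pLe_check hn
      rw [Bool.and_eq_true] at h
      obtain ⟨l, f1, f2, f3, f4, -, f6⟩ := close hL g1 g2 g4 h.1
      rw [dec_length] at f3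
      exact ⟨l, f1, f2, by omega, f4, ((has_hasE h.2).shift _).mono f6⟩

end

end Pool.Agent.X266.EPC
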