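import Pool.Agent.X266.EPC.Data

/-!
# Paths and cycles in a ladder of columns
-/

set_option autoImplicit false

namespace Pool.Agent.X266.EPC

theorem nd_nodup : ∀ {l : List ℕ}, nd l = true → l.Nodup
  | [], _ => List.nodup_nil
  | a :: l, h => by
    unfold nd at h
    rw [Bool.and_eq_true, List.all_eq_true] at h
    rw [List.nodup_cons]
    refine ⟨fun ha => ?_, nd_nodup h.2⟩
    have := h.1 a ha
    simp at this

theorem ch_chain {ad : ℕ → ℕ → Bool} :
    ∀ {l : List ℕ}, ch ad l = true → l.IsChain (fun a b => ad a b = true)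
  | [], _ => List.IsChain.nil
  | [a], _ => List.IsChain.singleton a
  | a :: b :: l, h => by
    unfold ch at h
    rw [Bool.and_eq_true] at h
    exact List.isChain_cons_cons.2 ⟨h.1, ch_chain h.2⟩

/-- `p` and `q` are consecutive entries -/
def HasE (p q : ℕ) (l : List ℕ) : Prop := [p, q] <:+: l ∨ [q, p] <:+: l

theorem has_hasE {a b : ℕ} : ∀ {l : List ℕ}, has a b l = true → HasE a b l
  | [], h => by simp [has] at h
  | [_], h => by simp [has] at h
  | x :: y :: l, h => by
    unfold has at h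
    rw [Bool.or_eq_true, Bool.or_eq_true, Bool.and_eq_true, Bool.and_eq_true] at h
    rcases h with (h | h) | h
    · left
      have h1 := Nat.eq_of_beq_eq_true h.1
      have h2 := Nat.eq_of_beq_eq_true h.2
      subst h1 h2
      exact ⟨[], l, rfl⟩
    · right
      have h1 := Nat.eq_of_beq_eq_true h.1
      have h2 := Nat.eq_of_beq_eq_true h.2
      subst h1 h2
      exact ⟨[], l, rfl⟩
    · rcases has_hasE h with h1 | h1
      · exact Or.inl (h1.trans (List.suffix_cons x (y :: l)).isInfix)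
      · exact Or.inr (h1.trans (List.suffix_cons x (y :: l)).isInfix)

theorem HasE.mono {p q : ℕ} {l l' : List ℕ} (h : HasE p q l) (hl : l <:+: l') : HasE p q l' :=
  h.imp (fun h => h.trans hl) (fun h => h.trans hl)

theorem HasE.shift {a b : ℕ} {l : List ℕ} (h : HasE a b l) (t : ℕ) :
    HasE (t + a) (t + b) (l.map (t + ·)) := by
  rcases h with h | h
  · exact Or.inl (by simpa using h.map (t + ·))
  · exact Or.inr (by simpa using h.map (t + ·))

theorem shift_nodup {l : List ℕ} (h : l.Nodup) (t : ℕ) : (l.map (t + ·)).Nodup :=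
  h.map (fun a b hab => by simpa using hab)

theorem shift_chain {A : ℕ → ℕ → Prop} {ad : ℕ → ℕ → Bool} {t : ℕ}
    (hA : ∀ a b, ad a b = true → A (t + a) (t + b)) {l : List ℕ}
    (h : l.IsChain (fun a b => ad a b = true)) : (l.map (t + ·)).IsChain A :=
  (List.isChain_map (t + ·)).2 (h.imp fun a b hab => hA a b hab)

/-- the offset of column `c` -/
def o (c : ℕ) : ℕ := 7 + 38 * c

theorem o_succ (c : ℕ) : o (c + 1) = o c + 38 := by unfold o; ring

/-- there is a path from `o c` to `o c + 1` with `k` inner vertices, all of them less than `o c`, which has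
the property `Q` -/
def Path (A : ℕ → ℕ → Prop) (c k : ℕ) (Q : List ℕ → Prop) : Prop :=
  ∃ M : List ℕ, M.Nodup ∧ (∀ v ∈ M, v < o c) ∧ M.length = k ∧
    (o c :: (M ++ [o c + 1])).IsChain A ∧ Q (o c :: (M ++ [o c + 1]))

/-- there is a cycle with `L` vertices, all of them less than `B`, which has the property `Q` -/
def Cyc (A : ℕ → ℕ → Prop) (B L : ℕ) (Q : List ℕ → Prop) : Prop :=
  ∃ l : List ℕ, l.Nodup ∧ (∀ v ∈ l, v < B) ∧ l.length = L ∧ (l ++ l.take 1).IsChain A ∧
    Q (l ++ l.take 1)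

theorem Cyc.mono {A : ℕ → ℕ → Prop} {B B' L : ℕ} {Q : List ℕ → Prop} (h : Cyc A B L Q)
    (hB : B ≤ B') : Cyc A B' L Q := by
  obtain ⟨l, h1, h2, h3⟩ := h
  exact ⟨l, h1, fun v hv => (h2 v hv).trans_le hB, h3⟩

theorem Path.weaken {A : ℕ → ℕ → Prop} {c k : ℕ} {Q Q' : List ℕ → Prop} (h : Path A c k Q)
    (hQ : ∀ l, Q l → Q' l) : Path A c k Q' := by
  obtain ⟨M, h1, h2, h3, h4, h5⟩ := h
  exact ⟨M, h1, h2, h3, h4, hQ _ h5⟩

/-- a path in the column (or in the left cap) from `1` to `0` closes the paths of the part to the right -/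
theorem close {A : ℕ → ℕ → Prop} {c B : ℕ} {ad : ℕ → ℕ → Bool}
    (hA : ∀ a b, ad a b = true → A (o c + a) (o c + b)) {M I : List ℕ}
    (hM : M.Nodup) (hM' : ∀ v ∈ M, v < o c) (hMc : (o c :: (M ++ [o c + 1])).IsChain A)
    (hI : ok ad B (1 :: (I ++ [0])) = true) :
    ∃ l : List ℕ, l.Nodup ∧ (∀ v ∈ l, v < o c + B) ∧ l.length = M.length + (I.length + 2) ∧
      (l ++ l.take 1).IsChain A ∧ (o c :: (M ++ [o c + 1])) <:+: (l ++ l.take 1) ∧
      ((1 :: (I ++ [0])).map (o c + ·)) <:+: (l ++ l.take 1) := by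
  unfold ok at hI
  rw [Bool.and_eq_true, Bool.and_eq_true, List.all_eq_true] at hI
  obtain ⟨⟨h1, h2⟩, h3⟩ := hI
  have h1' := shift_nodup (nd_nodup h1) (o c)
  have h3' := shift_chain hA (ch_chain h3)
  have e1 : (1 :: (I ++ [0])).map (o c + ·) = (o c + 1) :: (I.map (o c + ·) ++ [o c]) := by simp
  have e2 : (o c :: (M ++ ((o c + 1) :: I.map (o c + ·)))) ++
      (o c :: (M ++ ((o c + 1) :: I.map (o c + ·)))).take 1 =
      (o c :: M) ++ ((o c + 1) :: (I.map (o c + ·) ++ [o c])) := by simp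
  rw [e1] at h1' h3'
  refine ⟨o c :: (M ++ ((o c + 1) :: I.map (o c + ·))), ?_, ?_, ?_, ?_, ?_, ?_⟩
  · have hp : (o c :: (M ++ ((o c + 1) :: I.map (o c + ·)))).Perm
        (M ++ ((o c + 1) :: (I.map (o c + ·) ++ [o c]))) := by
      have := (List.perm_append_singleton (o c) (M ++ ((o c + 1) :: I.map (o c + ·)))).symm
      simpa using this
    rw [hp.nodup_iff, List.nodup_append]
    refine ⟨hM, h1', ?_⟩
    intro a ha b hb hab
    have := hM' a ha
    rw [← e1, List.mem_map] at hb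
    obtain ⟨x, -, hx⟩ := hb
    omega
  · intro v hv
    have h0 : ∀ x ∈ (1 :: (I ++ [0])), o c + x < o c + B := by
      intro x hx
      have := Nat.lt_of_lt_of_le (Nat.lt_succ_self x) (Nat.le_of_ble_eq_true (h2 x hx))
      omega
    rw [List.mem_cons, List.mem_append, List.mem_cons, List.mem_map] at hv
    have h00 := h0 0 (by simp)
    rcases hv with hv | hv | hv | ⟨x, hx, hv⟩
    · omega
    · have := hM' v hv
      omega
    · have := h0 1 (by simp)
      omega
    · have := h0 x (by simp [hx])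
      omega
  · simp
    omega
  · rw [e2]
    exact List.isChain_split.2 ⟨by simpa using hMc, h3'⟩
  · rw [e2]
    exact ⟨[], I.map (o c + ·) ++ [o c], by simp⟩
  · rw [e2, e1]
    exact ⟨o c :: M, [], by simp⟩

/-- two disjoint paths in the column from `38` to `0` and from `1` to `39` extend the paths of the part to
the right -/
theorem extend {A : ℕ → ℕ → Prop} {c w : ℕ} {t : ℕ × ℕ × ℕ × ℕ}
    (hA : ∀ a b, aK a b = true → A (o c + a) (o c + b)) {M : List ℕ}
    (hM : M.Nodup) (hM' : ∀ v ∈ M, v < o c) (hMc : (o c :: (M ++ [o c + 1])).IsChain A)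
    (ht : okm w t = true) :
    ∃ M' : List ℕ, M'.Nodup ∧ (∀ v ∈ M', v < o (c + 1)) ∧ M'.length + 2 = M.length + w ∧
      (o (c + 1) :: (M' ++ [o (c + 1) + 1])).IsChain A ∧
      (o c :: (M ++ [o c + 1])) <:+: (o (c + 1) :: (M' ++ [o (c + 1) + 1])) ∧
      ((38 :: (dec t.1 t.2.1 ++ [0])).map (o c + ·)) <:+: (o (c + 1) :: (M' ++ [o (c + 1) + 1])) ∧
      ((1 :: (dec t.2.2.1 t.2.2.2 ++ [39])).map (o c + ·)) <:+:
        (o (c + 1) :: (M' ++ [o (c + 1) + 1])) := by
  unfold okm at ht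
  have l1 : (dec t.1 t.2.1).length = t.1 := by simp [dec]
  have l2 : (dec t.2.2.1 t.2.2.2).length = t.2.2.1 := by simp [dec]
  generalize dec t.1 t.2.1 = T at *
  generalize dec t.2.2.1 t.2.2.2 = S at *
  simp only [Bool.and_eq_true, List.all_eq_true] at ht
  obtain ⟨⟨⟨⟨⟨h1, h2⟩, h3⟩, h4⟩, h5⟩, h6⟩ := ht
  have hw := Nat.eq_of_beq_eq_true h1
  have h2' := shift_nodup (nd_nodup h2) (o c)
  have h5' := shift_chain hA (ch_chain h5)
  have h6' := shift_chain hA (ch_chain h6)
  have e1 : (38 :: (T ++ [0])).map (o c + ·) = o (c + 1) :: (T.map (o c + ·) ++ [o c]) := by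
    simp [o_succ]
  have e2 : (1 :: (S ++ [39])).map (o c + ·) = (o c + 1) :: (S.map (o c + ·) ++ [o (c + 1) + 1]) := by
    simp [o_succ]
  have e3 : (T ++ (0 :: 1 :: S)).map (o c + ·) =
      T.map (o c + ·) ++ (o c :: (o c + 1) :: S.map (o c + ·)) := by simp
  have e4 : o (c + 1) :: ((T.map (o c + ·) ++ (o c :: (M ++ ((o c + 1) :: S.map (o c + ·))))) ++
      [o (c + 1) + 1]) = (o (c + 1) :: T.map (o c + ·)) ++ (o c :: (M ++
        ((o c + 1) :: (S.map (o c + ·) ++ [o (c + 1) + 1])))) := by simp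
  rw [e1] at h5'
  rw [e2] at h6'
  refine ⟨T.map (o c + ·) ++ (o c :: (M ++ ((o c + 1) :: S.map (o c + ·)))), ?_, ?_, ?_, ?_, ?_, ?_, ?_⟩
  · have hp : (T.map (o c + ·) ++ (o c :: (M ++ ((o c + 1) :: S.map (o c + ·))))).Perm
        (M ++ (T.map (o c + ·) ++ (o c :: (o c + 1) :: S.map (o c + ·)))) := by
      have := List.perm_append_comm_assoc (T.map (o c + ·) ++ [o c]) M
        ((o c + 1) :: S.map (o c + ·))
      simpa using this
    rw [hp.nodup_iff, List.nodup_append, ← e3]
    refine ⟨hM, h2', ?_⟩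
    intro a ha b hb hab
    have := hM' a ha
    rw [List.mem_map] at hb
    obtain ⟨x, -, hx⟩ := hb
    omega
  · intro v hv
    have ho := o_succ c
    rw [List.mem_append, List.mem_cons, List.mem_append, List.mem_cons, List.mem_map,
      List.mem_map] at hv
    rcases hv with ⟨x, hx, hv⟩ | hv | hv | hv | ⟨x, hx, hv⟩
    · have := Nat.le_of_ble_eq_true (h3 x hx)
      omega
    · omega
    · have := hM' v hv
      omega
    · omega
    · have := Nat.le_of_ble_eq_true (h4 x hx)
      omega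
  · simp only [List.length_append, List.length_cons, List.length_map]
    omega
  · rw [e4]
    refine List.isChain_split.2 ⟨by simpa using h5', ?_⟩
    rw [← List.cons_append]
    exact List.isChain_split.2 ⟨by simpa using hMc, h6'⟩
  · rw [e4]
    exact ⟨o (c + 1) :: T.map (o c + ·), S.map (o c + ·) ++ [o (c + 1) + 1], by simp⟩
  · rw [e4, e1]
    exact ⟨[], M ++ ((o c + 1) :: (S.map (o c + ·) ++ [o (c + 1) + 1])), by simp⟩
  · rw [e4, e2]
    exact ⟨(o (c + 1) :: T.map (o c + ·)) ++ (o c :: M), [], by simp⟩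

end Pool.Agent.X266.EPC
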